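import Pool.Agent.Q294.Ce.Lim
import Pool.Agent.Q294.Ce.Trans
import Pool.Agent.Q190.Ce.Mom
import Pool.Agent.Q177.Ce.Left
import Pool.Agent.Q176.Ce.Stack
import Pool.Agent.Q144.Ce.Sup

/-!
# A uniformly elliptic environment with `μ = θ = 1` and a right transient excited random walk
-/

set_option autoImplicit false

namespace Pool.Agent.Results.MP_758450_pr.RightTransientEnvironment

open MeasureTheory ProbabilityTheory Filter Topology
open Pool.Agent.Q294

universe u v

/-- `c n = 1 / √(1 + log (n + 1))`, which decreases to `0` -/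
noncomputable def c (n : ℕ) : ℝ := 1 / √(1 + Real.log (n + 1))

/-- the cookie environment `p`: `p i = 1/2 + (1 + c 3)/6` for `i = 1, 2, 3` and
`p i = 1/2 - (c (i - 1) - c i)/2` for `i ≥ 4` -/
noncomputable def p (i : ℕ) : ℝ :=
  if i ≤ 3 then 1 / 2 + (1 + c 3) / 6 else 1 / 2 - (c (i - 1) - c i) / 2

/-- the number of the visit to the present site: the number of `k ≤ n` with `x k = x n` -/
def visit (x : ℕ → ℤ) (n : ℕ) : ℕ := ((Finset.range (n + 1)).filter fun k => x k = x n).card

/-- `X` is an excited random walk in the environment `p` piled at every site: it starts at `0`, and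
given the past, at the `j`-th visit to a site it steps to the right with probability `p j` and to
the left with probability `1 - p j`. -/
structure IsERW {Ω : Type*} [MeasurableSpace Ω] (p : ℕ → ℝ) (P : Measure Ω) (X : ℕ → Ω → ℤ) :
    Prop where
  measurable : ∀ n, Measurable (X n)
  start : ∀ᵐ ω ∂P, X 0 ω = 0
  right : ∀ (n : ℕ) (x : ℕ → ℤ), P.real {ω | (∀ k ≤ n, X k ω = x k) ∧ X (n + 1) ω = x n + 1} =
    p (visit x n) * P.real {ω | ∀ k ≤ n, X k ω = x k}
  left : ∀ (n : ℕ) (x : ℕ → ℤ), P.real {ω | (∀ k ≤ n, X k ω = x k) ∧ X (n + 1) ω = x n - 1} =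
    (1 - p (visit x n)) * P.real {ω | ∀ k ≤ n, X k ω = x k}

/-- for trials `b 1, b 2, …` (`true` = success): the number of trials up to the `x`-th failure -/
noncomputable def T (b : ℕ → Bool) (x : ℕ) : ℕ :=
  sInf {t | x ≤ ((Finset.Icc 1 t).filter fun i => b i = false).card}

/-- the number of successes until the `x`-th failure -/
noncomputable def U (b : ℕ → Bool) (x : ℕ) : ℕ :=
  ((Finset.Icc 1 (T b x)).filter fun i => b i = true).card

lemma p_eq (i : ℕ) : p (i + 1) = Ce.pp i := by
  have hc : ∀ n, c n = Ce.cc n := fun n => rfl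
  unfold p Ce.pp
  rw [hc, hc, hc]
  by_cases h : i < 3
  · rw [if_pos h, if_pos (by omega)]
    ring
  · rw [if_neg h, if_neg (by omega), Nat.add_sub_cancel]
    ring

lemma card_shift (b : ℕ → Bool) (v : Bool) (t : ℕ) :
    ((Finset.Icc 1 t).filter fun i => b i = v).card =
      ((Finset.range t).filter fun i => b (i + 1) = v).card := by
  have h : (Finset.Icc 1 t).filter (fun i => b i = v) =
      ((Finset.range t).filter fun i => b (i + 1) = v).map (addRightEmbedding 1) := by
    ext i
    simp only [Finset.mem_filter, Finset.mem_Icc, Finset.mem_map, Finset.mem_range,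
      addRightEmbedding_apply]
    constructor
    · rintro ⟨⟨h1, h2⟩, h3⟩
      refine ⟨i - 1, ⟨by omega, ?_⟩, by omega⟩
      rw [Nat.sub_add_cancel h1]
      exact h3
    · rintro ⟨j, ⟨h1, h2⟩, rfl⟩
      exact ⟨⟨by omega, by omega⟩, h2⟩
  rw [h, Finset.card_map]

lemma T_eq (b : ℕ → Bool) (x : ℕ) : T b x = Ce.NN x fun i => b (i + 1) := by
  unfold T Ce.NN
  congr 1
  ext t
  show x ≤ _ ↔ x ≤ _
  rw [card_shift]
  rfl

lemma U_eq (b : ℕ → Bool) (x : ℕ) : U b x = Ce.VV x fun i => b (i + 1) := by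
  rw [Ce.VV_eq_suc]
  unfold U
  rw [card_shift, T_eq]
  rfl

/-- a law on `Bool` with the right success probability -/
lemma law_bern (μ : Measure Bool) [IsProbabilityMeasure μ] (a : ℝ) (h0 : 0 ≤ a) (h1 : a ≤ 1)
    (h : μ.real {true} = a) : μ = Ce.bern a := by
  have ht : μ {true} = ENNReal.ofReal a := by
    rw [← h]
    unfold Measure.real
    rw [ENNReal.ofReal_toReal (measure_ne_top _ _)]
  have hf : μ {false} = ENNReal.ofReal (1 - a) := by
    have h2 : ({false} : Set Bool) = {true}ᶜ := by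
      ext b
      cases b <;> simp
    rw [h2, prob_compl_eq_one_sub (MeasurableSet.singleton _), ht,
      ENNReal.ofReal_sub _ h0, ENNReal.ofReal_one]
  refine Measure.ext_of_singleton fun b => ?_
  unfold Ce.bern
  rw [Ce.cl_eq h0 h1]
  cases b
  · rw [hf]
    simp
  · rw [ht]
    simp

/-- **Theorem.**  The explicit environment `p` is uniformly elliptic, it has `μ = 1` and `θ = 1`, and
every excited random walk in it is right transient (and such walks exist). -/
theorem result :
    -- uniform ellipticity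
    (∀ i, 1 / 10 ≤ p i ∧ p i ≤ 9 / 10) ∧
    -- `μ = 1` and `θ = 1`: for independent trials `B 1, B 2, …` with `P(B i = 1) = p i`
    (∀ (Ω : Type u) [MeasurableSpace Ω] (P : Measure Ω) [IsProbabilityMeasure P]
      (B : ℕ → Ω → Bool), (∀ i, Measurable (B i)) → iIndepFun (fun i => B (i + 1)) P →
      (∀ i, 1 ≤ i → P.real {ω | B i ω = true} = p i) →
      (∀ᵐ ω ∂P, ∀ x, ∃ t, x ≤ ((Finset.Icc 1 t).filter fun i => B i ω = false).card) ∧
      (∀ x : ℕ, Integrable (fun ω => (U (fun i => B i ω) x : ℝ)) P) ∧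
      (∀ x : ℕ, Integrable (fun ω => ((U (fun i => B i ω) x : ℝ) - x) ^ 2) P) ∧
      Tendsto (fun x : ℕ => (∫ ω, (U (fun i => B i ω) x : ℝ) ∂P) / x) atTop (𝓝 1) ∧
      Tendsto (fun x : ℕ => 2 * (∫ ω, ((U (fun i => B i ω) x : ℝ) - x) ∂P) /
        ((∫ ω, ((U (fun i => B i ω) x : ℝ) - x) ^ 2 ∂P) / x)) atTop (𝓝 1)) ∧
    -- right transience
    (∀ (Ω : Type v) [MeasurableSpace Ω] (P : Measure Ω) [IsProbabilityMeasure P]
      (X : ℕ → Ω → ℤ), IsERW p P X → ∀ᵐ ω ∂P, Tendsto (fun n => X n ω) atTop atTop) ∧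
    -- existence of the walk
    (∃ (Ω : Type) (_ : MeasurableSpace Ω) (P : Measure Ω) (X : ℕ → Ω → ℤ),
      IsProbabilityMeasure P ∧ IsERW p P X) := by
  have h1 : Ce.S_mean := Q190.Ce.mean
  have h2 : Ce.S_second := Q190.Ce.second
  have h3 : Ce.S_left := Q177.Ce.left
  have h4 : Ce.S_env := Q177.Ce.env
  have hst : Ce.S_stack := Q176.Ce.stack
  have hlaw : Ce.S_law := Q144.Ce.law
  have hsup : Ce.S_sup := Q144.Ce.sup
  have hG := h4.1
  obtain ⟨ha, hm, hint, hmean⟩ := h1 _ _ _ hG
  obtain ⟨C, hC, hsec⟩ := h2 _ _ _ hG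
  have hS : Ce.S_surv := Ce.surv_of_lyap hm hG (Ce.lyap h1 h2 h3 h4)
  -- the two notions of an excited random walk agree
  have hE : ∀ {Ω : Type v} [MeasurableSpace Ω] (P : Measure Ω) (X : ℕ → Ω → ℤ),
      IsERW p P X → Ce.IsERW Ce.pp P X := by
    intro Ω _ P X h
    have hv : ∀ (x : ℕ → ℤ) (n : ℕ), p (visit x n) = Ce.pp (Ce.visits x n - 1) := by
      intro x n
      have h5 : 1 ≤ Ce.visits x n := by
        unfold Ce.visits
        rw [Nat.one_le_iff_ne_zero, Ne, Finset.card_eq_zero, Finset.filter_eq_empty_iff]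
        push Not
        exact ⟨n, by simp, rfl⟩
      rw [← p_eq, Nat.sub_add_cancel h5]
      rfl
    refine ⟨h.measurable, h.start, fun n x => ?_, fun n x => ?_⟩
    · rw [← hv]
      exact h.right n x
    · rw [← hv]
      exact h.left n x
  refine ⟨fun i => ?_, ?_, ?_, ?_⟩
  · rcases Nat.eq_zero_or_pos i with rfl | hi
    · have e : p 0 = p (0 + 1) := by
        unfold p
        norm_num
      rw [e, p_eq]
      have := hG.lo 0
      have := hG.hi 0
      constructor <;> linarith
    · obtain ⟨j, rfl⟩ : ∃ j, i = j + 1 := ⟨i - 1, by omega⟩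
      rw [p_eq]
      have := hG.lo j
      have := hG.hi j
      constructor <;> linarith
  · intro Ω _ P _ B hB hind hp
    have hφm : Measurable (fun ω i => B (i + 1) ω) := measurable_pi_lambda _ fun i => hB (i + 1)
    have hφ : P.map (fun ω i => B (i + 1) ω) = Ce.coins Ce.pp := by
      rw [hind.map_fun_eq_infinitePi_map fun i => hB (i + 1)]
      unfold Ce.coins
      congr 1
      funext i
      have : IsProbabilityMeasure (P.map (B (i + 1))) :=
        Measure.isProbabilityMeasure_map (hB (i + 1)).aemeasurable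
      refine law_bern _ _ (by have := hG.lo i; linarith) (by have := hG.hi i; linarith) ?_
      rw [map_measureReal_apply (hB (i + 1)) (measurableSet_singleton _), ← p_eq]
      exact hp (i + 1) (by omega)
    have hU : ∀ (x : ℕ) (ω : Ω), U (fun i => B i ω) x = Ce.VV x fun i => B (i + 1) ω :=
      fun x ω => U_eq _ _
    have hVm : ∀ k, Measurable fun f : ℕ → Bool => (Ce.VV k f : ℝ) := fun k =>
      (Measurable.of_discrete (f := fun n : ℕ => (n : ℝ))).comp (Ce.measurable_VV hm k)
    have e1 : ∀ x : ℕ, ∫ ω, (U (fun i => B i ω) x : ℝ) ∂P =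
        ∫ f, (Ce.VV x f : ℝ) ∂(Ce.coins Ce.pp) := by
      intro x
      rw [← hφ, integral_map hφm.aemeasurable (hVm x).aestronglyMeasurable]
      simp_rw [hU]
    have e2 : ∀ x : ℕ, ∫ ω, ((U (fun i => B i ω) x : ℝ) - x) ∂P =
        ∫ f, ((Ce.VV x f : ℝ) - x) ∂(Ce.coins Ce.pp) := by
      intro x
      rw [← hφ, integral_map hφm.aemeasurable ((hVm x).sub_const _).aestronglyMeasurable]
      simp_rw [hU]
    have e3 : ∀ x : ℕ, ∫ ω, ((U (fun i => B i ω) x : ℝ) - x) ^ 2 ∂P =
        ∫ f, ((Ce.VV x f : ℝ) - x) ^ 2 ∂(Ce.coins Ce.pp) := by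
      intro x
      rw [← hφ, integral_map hφm.aemeasurable
        (((hVm x).sub_const _).pow_const 2).aestronglyMeasurable]
      simp_rw [hU]
    obtain ⟨l1, l2, l3⟩ := Ce.limits h1 h2 h4
    have hV' : ∀ z, Integrable (fun f => (Ce.VV z f : ℝ)) (Ce.coins Ce.pp) := by
      intro z
      have h5 : Integrable (fun f => (Ce.NN z f : ℝ) - z) (Ce.coins Ce.pp) :=
        (hint z).sub (integrable_const _)
      apply h5.congr
      filter_upwards [ha] with f hf
      rw [Ce.VV_cast hf]
    refine ⟨?_, fun x => ?_, fun x => ?_, ?_, ?_⟩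
    · have h5 : ∀ᵐ f ∂(P.map (fun ω i => B (i + 1) ω)), ∀ k, ∃ j, k ≤ _root_.Q294.Cookie.fai f j := by
        rw [hφ]
        exact ha
      have h6 := ae_of_ae_map hφm.aemeasurable h5
      filter_upwards [h6] with ω hω x
      obtain ⟨j, hj⟩ := hω x
      refine ⟨j, ?_⟩
      rw [card_shift]
      exact hj
    · have h5 := hV' x
      rw [← hφ] at h5
      have h6 := h5.comp_measurable hφm
      refine h6.congr (Eventually.of_forall fun ω => ?_)
      show (Ce.VV x (fun i => B (i + 1) ω) : ℝ) = (U (fun i => B i ω) x : ℝ)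
      rw [hU]
    · have h5 := (hsec x).1
      rw [← hφ] at h5
      have h6 := h5.comp_measurable hφm
      refine h6.congr (Eventually.of_forall fun ω => ?_)
      show ((Ce.VV x (fun i => B (i + 1) ω) : ℝ) - x) ^ 2 = ((U (fun i => B i ω) x : ℝ) - x) ^ 2
      rw [hU]
    · simp_rw [e1]
      exact l1
    · simp_rw [e2, e3]
      have h5 := (l2.const_mul 2).div l3 (by norm_num)
      have e : (2 : ℝ) * 1 / 2 = 1 := by norm_num
      rw [e] at h5
      exact h5
  · intro Ω _ P _ X hX
    exact Ce.right_transient hm hG hS hst hsup hlaw P X (hE P X hX)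
  · have hW := hst Ce.pp (fun j => by have := hG.lo j; linarith)
      (fun j => by have := hG.hi j; linarith)
    have hv : ∀ (x : ℕ → ℤ) (n : ℕ), p (visit x n) = Ce.pp (Ce.visits x n - 1) := by
      intro x n
      have h5 : 1 ≤ Ce.visits x n := by
        unfold Ce.visits
        rw [Nat.one_le_iff_ne_zero, Ne, Finset.card_eq_zero, Finset.filter_eq_empty_iff]
        push Not
        exact ⟨n, by simp, rfl⟩
      rw [← p_eq, Nat.sub_add_cancel h5]
      rfl
    refine ⟨ℤ → ℕ → Bool, inferInstance, Ce.env Ce.pp, fun n c => _root_.Q294.Cookie.xx c n,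
      by unfold Ce.env; infer_instance, hW.meas, hW.start, fun n x => ?_, fun n x => ?_⟩
    · rw [hv]
      exact hW.right n x
    · rw [hv]
      exact hW.left n x

end Pool.Agent.Results.MP_758450_pr.RightTransientEnvironment
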